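import Pool.Agent.H.MP_db48a2_an.Ex.Main

/-!
# The number of repelling fixed points of iterates in the Berkovich line

`K` is an algebraically closed nonarchimedean field (nontrivially valued, any characteristic, any
residue characteristic), `R` a rational function of degree `d ≥ 2` over `K`.  The points of the
Berkovich line outside of `ℙ¹(K)` are the absolute values of `K(T)` extending the norm of `K`; the map
`R` sends `v` to `f ↦ v (f ∘ R)`.
-/

namespace Pool.Agent.Results.MP_db48a2_an.RepellingCount

open Polynomial PoolBerk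

/-- Repelling fixed points in `K` of the rational function `g`: points `y` which are not poles of `g`,
with `g y = y` and with multiplier `g' y = (P' Q - P Q') (y) / Q (y) ^ 2` of norm larger than one
(`g = P / Q`). -/
def RepFix {K : Type*} [NontriviallyNormedField K] (g : RatFunc K) : Set K :=
  {y | g.denom.eval y ≠ 0 ∧ g.num.eval y / g.denom.eval y = y ∧
    1 < ‖(derivative g.num * g.denom - g.num * derivative g.denom).eval y /
      g.denom.eval y ^ 2‖}

theorem repFix_eq {K : Type*} [NontriviallyNormedField K] (g : RatFunc K) :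
    RepFix g = RepPts g.num g.denom := by
  ext y
  unfold RepFix RepPts
  simp only [Set.mem_setOf_eq]
  refine and_congr_right fun hy => ?_
  have h1 : 0 < ‖g.denom.eval y‖ ^ 2 := by
    have := norm_pos_iff.mpr hy
    positivity
  rw [div_eq_iff hy, norm_div, norm_pow, one_lt_div h1]

/-- The substitution `T ↦ R` for a nonconstant rational function `R`. -/
theorem exists_subst {K : Type*} [Field K] [IsAlgClosed K] (R : RatFunc K) (hR : 1 ≤ rdeg R) :
    ∃ σ : RatFunc K →ₐ[K] RatFunc K, σ RatFunc.X = R := by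
  have hne : ∀ z : K, R - algebraMap K (RatFunc K) z ≠ 0 := by
    intro z hz
    rw [sub_eq_zero] at hz
    have h1 : algebraMap K (RatFunc K) z = RatFunc.C z := rfl
    unfold rdeg at hR
    rw [hz, h1, RatFunc.num_C, RatFunc.denom_C, natDegree_C, natDegree_one, max_self] at hR
    exact absurd hR (by omega)
  have key : ∀ p : K[X], p ≠ 0 → aeval R p ≠ 0 := by
    intro p hp
    rw [(IsAlgClosed.splits p).eq_prod_roots, map_mul, aeval_C, map_multiset_prod,
      Multiset.map_map]
    refine mul_ne_zero ?_ ?_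
    · rw [_root_.map_ne_zero]
      exact leadingCoeff_ne_zero.mpr hp
    · rw [Ne, Multiset.prod_eq_zero_iff]
      intro h0
      obtain ⟨z, -, hz⟩ := Multiset.mem_map.mp h0
      simp only [Function.comp_apply, map_sub, aeval_X, aeval_C] at hz
      exact hne z hz
  have hφ : nonZeroDivisors K[X] ≤ (nonZeroDivisors (RatFunc K)).comap (aeval (R := K) R) := by
    intro p hp
    rw [Submonoid.mem_comap]
    exact mem_nonZeroDivisors_of_ne_zero (key p (nonZeroDivisors.ne_zero hp))
  refine ⟨RatFunc.liftAlgHom (aeval R) hφ, ?_⟩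
  have h2 : (RatFunc.X : RatFunc K) = algebraMap K[X] (RatFunc K) X :=
    RatFunc.algebraMap_X.symm
  rw [h2]
  have h3 := RatFunc.liftAlgHom_apply_div (aeval R) hφ (X : K[X]) 1
  rw [map_one, div_one, map_one, div_one, aeval_X] at h3
  exact h3

/-- **Theorem.**  Let `K` be an algebraically closed nonarchimedean field, `R` a rational function
over `K` of degree `d ≥ 2` and `σ : f ↦ f ∘ R`.  Then for `n ≥ 1` the iterate `R^n` has finitely many
repelling fixed points outside of `ℙ¹(K)` and finitely many in `K`, and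

`∑ (deg - 1) + #(repelling fixed points in K) ≤ d ^ n + 1`;

if `∞` is a fixed point of `R^n` (the degree of the numerator is larger than the degree of the
denominator), the left side is at most `d ^ n`. -/
theorem result {K : Type*} [NontriviallyNormedField K] [IsUltrametricDist K] [IsAlgClosed K]
    (R : RatFunc K) (hd : 2 ≤ rdeg R) :
    ∃ σ : RatFunc K →ₐ[K] RatFunc K, σ RatFunc.X = R ∧ ∀ n : ℕ, 1 ≤ n →
      (RFixH (σ ^ n)).Finite ∧ (RepFix ((σ ^ n) RatFunc.X)).Finite ∧
      ∑ᶠ v ∈ RFixH (σ ^ n), ((locDeg (σ ^ n) v : ℝ) - 1) +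
          ((RepFix ((σ ^ n) RatFunc.X)).ncard : ℝ) ≤ (rdeg R : ℝ) ^ n + 1 ∧
      (((σ ^ n) RatFunc.X).denom.natDegree < ((σ ^ n) RatFunc.X).num.natDegree →
        ∑ᶠ v ∈ RFixH (σ ^ n), ((locDeg (σ ^ n) v : ℝ) - 1) +
          ((RepFix ((σ ^ n) RatFunc.X)).ncard : ℝ) ≤ (rdeg R : ℝ) ^ n) := by
  obtain ⟨σ, rfl⟩ := exists_subst R (by omega)
  refine ⟨σ, rfl, fun n hn => ?_⟩
  have hrep : (RepFix ((σ ^ n) RatFunc.X)).ncard = repCount σ n := by
    rw [repFix_eq]
    rfl
  obtain ⟨h1, h2⟩ := exact_real (σ := σ) hd hn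
  refine ⟨finite_RFixH hd hn, ?_, ?_, fun h => ?_⟩
  · rw [repFix_eq]
    exact repPts_finite hd hn
  · rw [hrep]
    exact h1
  · rw [hrep]
    exact h2 h

end Pool.Agent.Results.MP_db48a2_an.RepellingCount
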