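import Pool.Agent.H.MP_db48a2_an.Bg.FinB

/-!
# Repelling fixed points of iterates outside of `ℙ¹(K)`

`K` is an algebraically closed nonarchimedean field (nontrivially valued, any characteristic, any
residue characteristic), `R` a rational function of degree `d ≥ 2` over `K`.  The points of the
Berkovich line outside of `ℙ¹(K)` are the absolute values of `K(T)` extending the norm of `K`; the map
`R` sends `v` to `f ↦ v (f ∘ R)`.
-/

namespace Pool.Agent.Results.MP_db48a2_an.RepellingVanishing

open Polynomial PoolBerk Filter Topology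

/-- Repelling fixed points in `K` of the rational function `g`: points `y` which are not poles of `g`,
with `g y = y` and with multiplier `g' y = (P' Q - P Q') (y) / Q (y) ^ 2` of norm larger than one
(`g = P / Q`). -/
def RepFix {K : Type*} [NontriviallyNormedField K] (g : RatFunc K) : Set K :=
  {y | g.denom.eval y ≠ 0 ∧ g.num.eval y / g.denom.eval y = y ∧
    1 < ‖(derivative g.num * g.denom - g.num * derivative g.denom).eval y /
      g.denom.eval y ^ 2‖}

theorem repFix_eq {K : Type*} [NontriviallyNormedField K] (g : RatFunc K) :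
    RepFix g = RepPts g.num g.denom := by
  ext y
  unfold RepFix RepPts
  simp only [Set.mem_setOf_eq]
  refine and_congr_right fun hy => ?_
  have h1 : 0 < ‖g.denom.eval y‖ ^ 2 := by
    have := norm_pos_iff.mpr hy
    positivity
  rw [div_eq_iff hy, norm_div, norm_pow, one_lt_div h1]

/-- The substitution `T ↦ R` for a nonconstant rational function `R`. -/
theorem exists_subst {K : Type*} [Field K] [IsAlgClosed K] (R : RatFunc K) (hR : 1 ≤ rdeg R) :
    ∃ σ : RatFunc K →ₐ[K] RatFunc K, σ RatFunc.X = R := by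
  have hne : ∀ z : K, R - algebraMap K (RatFunc K) z ≠ 0 := by
    intro z hz
    rw [sub_eq_zero] at hz
    have h1 : algebraMap K (RatFunc K) z = RatFunc.C z := rfl
    unfold rdeg at hR
    rw [hz, h1, RatFunc.num_C, RatFunc.denom_C, natDegree_C, natDegree_one, max_self] at hR
    exact absurd hR (by omega)
  have key : ∀ p : K[X], p ≠ 0 → aeval R p ≠ 0 := by
    intro p hp
    rw [(IsAlgClosed.splits p).eq_prod_roots, map_mul, aeval_C, map_multiset_prod,
      Multiset.map_map]
    refine mul_ne_zero ?_ ?_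
    · rw [_root_.map_ne_zero]
      exact leadingCoeff_ne_zero.mpr hp
    · rw [Ne, Multiset.prod_eq_zero_iff]
      intro h0
      obtain ⟨z, -, hz⟩ := Multiset.mem_map.mp h0
      simp only [Function.comp_apply, map_sub, aeval_X, aeval_C] at hz
      exact hne z hz
  have hφ : nonZeroDivisors K[X] ≤ (nonZeroDivisors (RatFunc K)).comap (aeval (R := K) R) := by
    intro p hp
    rw [Submonoid.mem_comap]
    exact mem_nonZeroDivisors_of_ne_zero (key p (nonZeroDivisors.ne_zero hp))
  refine ⟨RatFunc.liftAlgHom (aeval R) hφ, ?_⟩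
  have h2 : (RatFunc.X : RatFunc K) = algebraMap K[X] (RatFunc K) X :=
    RatFunc.algebraMap_X.symm
  rw [h2]
  have h3 := RatFunc.liftAlgHom_apply_div (aeval R) hφ (X : K[X]) 1
  rw [map_one, div_one, map_one, div_one, aeval_X] at h3
  exact h3

/-- **Theorem.**  Let `K` be an algebraically closed nonarchimedean field, `R` a rational function
over `K` of degree `d ≥ 2` and `σ : f ↦ f ∘ R`.  Then for `n ≥ 1` the iterate `R^n` has finitely many
repelling fixed points outside of `ℙ¹(K)`, and for `3 k ≤ n`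

`(1 - 3 k / n) ∑ (deg - 1) + #(repelling fixed points in K) ≤ d ^ n + 1 + ∑_{1 ≤ j ≤ n - k} d ^ j`.

Consequently, if the number of repelling fixed points of `R^n` in `K` is asymptotic to `d ^ n`, then
the sum of the local degrees of `R^n` at its repelling fixed points outside of `ℙ¹(K)` is
`o (d ^ n)`. -/
theorem result {K : Type*} [NontriviallyNormedField K] [IsUltrametricDist K] [IsAlgClosed K]
    (R : RatFunc K) (hd : 2 ≤ rdeg R) :
    ∃ σ : RatFunc K →ₐ[K] RatFunc K, σ RatFunc.X = R ∧
      (∀ n : ℕ, 1 ≤ n → (RFixH (σ ^ n)).Finite) ∧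
      (∀ n k : ℕ, 1 ≤ n → 3 * k ≤ n →
        (1 - 3 * (k : ℝ) / n) * ∑ᶠ v ∈ RFixH (σ ^ n), ((locDeg (σ ^ n) v : ℝ) - 1) +
            ((RepFix ((σ ^ n) RatFunc.X)).ncard : ℝ) ≤
          (rdeg R : ℝ) ^ n + 1 + ∑ j ∈ Finset.Icc 1 (n - k), (rdeg R : ℝ) ^ j) ∧
      (Tendsto (fun n : ℕ => ((RepFix ((σ ^ n) RatFunc.X)).ncard : ℝ) / (rdeg R : ℝ) ^ n)
          atTop (𝓝 1) →
        Tendsto (fun n : ℕ => (∑ᶠ v ∈ RFixH (σ ^ n), (locDeg (σ ^ n) v : ℝ)) / (rdeg R : ℝ) ^ n)
          atTop (𝓝 0)) := by
  obtain ⟨σ, rfl⟩ := exists_subst R (by omega)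
  have hrep : ∀ n : ℕ, (RepFix ((σ ^ n) RatFunc.X)).ncard = repCount σ n := by
    intro n
    rw [repFix_eq]
    rfl
  refine ⟨σ, rfl, fun n hn => finite_RFixH hd hn, fun n k hn hk => ?_, fun h => ?_⟩
  · rw [hrep]
    exact ineq_real hd hn hk
  · simp only [hrep] at h
    exact vanishing hd h

end Pool.Agent.Results.MP_db48a2_an.RepellingVanishing
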